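import Pool.Agent.Helper67.SQ.Basic

/-!
# Block 7: compactness (effective version of the half space theorem)
-/

namespace Helper67.SQ

open Real Filter Topology

/-- The triangulated binary tiling is connected. -/
theorem connected (p : V) : ∃ n, Near n (0, 0) p := by
  have step : ∀ {q r : V}, (∃ n, Near n (0, 0) q) → Adj q r → ∃ n, Near n (0, 0) r := by
    rintro q r ⟨n, hn⟩ h
    exact ⟨n + 1, hn.trans (Near.of_adj h)⟩
  have h0 : ∀ j : ℤ, ∃ n, Near n (0, 0) ((0, j) : V) := by
    intro j
    induction j using Int.induction_on with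
    | zero => exact ⟨0, rfl⟩
    | succ i ih => exact step ih (Or.inl (Edge.horiz 0 i))
    | pred i ih =>
      refine step ih (Or.inr ?_)
      have := Edge.horiz 0 (-(i : ℤ) - 1)
      simpa using this
  have key : ∀ d : ℤ, ∀ j : ℤ, ∃ n, Near n (0, 0) ((d, j) : V) := by
    intro d
    induction d using Int.induction_on with
    | zero => exact h0
    | succ i ih =>
      intro j
      rcases Int.even_or_odd' j with ⟨k, rfl | rfl⟩
      · exact step (ih k) (Or.inl (Edge.left _ k))
      · exact step (ih k) (Or.inl (Edge.right _ k))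
    | pred i ih =>
      intro j
      refine step (ih (2 * j)) (Or.inr ?_)
      have := Edge.left (-(i : ℤ) - 1) j
      simpa using this
  exact key p.1 p.2

/-- Bounded real sequences converge along the hyperfilter. -/
theorem exists_hyperlim (f : ℕ → ℝ) (B : ℝ) (hf : ∀ n, |f n| ≤ B) :
    ∃ x, Tendsto f (hyperfilter ℕ : Filter ℕ) (𝓝 x) := by
  have hc : IsCompact (Set.Icc (-B) B) := isCompact_Icc
  have := hc.ultrafilter_le_nhds ((hyperfilter ℕ).map f) (by
    rw [le_principal_iff, Ultrafilter.mem_coe, Ultrafilter.mem_map]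
    exact Filter.univ_mem' fun n => abs_le.1 (hf n))
  obtain ⟨x, -, hx⟩ := this
  exact ⟨x, hx⟩

/-- Limits of coarse embeddings. -/
theorem effective_aux (Λ : ℝ) (hΛ : 1 ≤ Λ)
    (H : ∀ X Y T : V → ℝ, Coarse (2 * Λ) X Y T → (∀ p, 0 ≤ T p) → False) :
    ∃ R : ℕ, ∀ X Y T : V → ℝ, Coarse Λ X Y T →
    ∃ q, Near R (0, 0) q ∧ T q < T (0, 0) - 1 := by
  by_contra hcon
  push Not at hcon
  choose X Y T hco hlow using hcon
  set τ : ℕ → ℝ := fun R => T R (0, 0) - 1 with hτ
  set X' : ℕ → V → ℝ := fun R p => exp (τ R) * (X R p - X R (0, 0)) with hX'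
  set Y' : ℕ → V → ℝ := fun R p => exp (-τ R) * (Y R p - Y R (0, 0)) with hY'
  set T' : ℕ → V → ℝ := fun R p => T R p - τ R with hT'
  have hco' : ∀ R, Coarse Λ (X' R) (Y' R) (T' R) := fun R =>
    (hco R).shift (X R (0, 0)) (Y R (0, 0)) (τ R)
  have hT0 : ∀ R, T' R (0, 0) = 1 := fun R => by simp only [hT', hτ]; ring
  have hX0 : ∀ R, X' R (0, 0) = 0 := fun R => by simp [hX']
  have hY0 : ∀ R, Y' R (0, 0) = 0 := fun R => by simp [hY']
  -- limits
  have hlX : ∀ p, ∃ x, Tendsto (fun R => X' R p) (hyperfilter ℕ : Filter ℕ) (𝓝 x) := by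
    intro p
    obtain ⟨n, hn⟩ := connected p
    refine exists_hyperlim _ (n * Λ * exp (-1 + Λ * n)) fun R => ?_
    have := (hco' R).near_X hn
    rw [hX0, hT0, zero_sub, abs_neg] at this
    exact this
  have hlY : ∀ p, ∃ x, Tendsto (fun R => Y' R p) (hyperfilter ℕ : Filter ℕ) (𝓝 x) := by
    intro p
    obtain ⟨n, hn⟩ := connected p
    refine exists_hyperlim _ (n * Λ * exp (1 + Λ * n)) fun R => ?_
    have := (hco' R).near_Y hn
    rw [hY0, hT0, zero_sub, abs_neg] at this
    exact this
  have hlT : ∀ p, ∃ x, Tendsto (fun R => T' R p) (hyperfilter ℕ : Filter ℕ) (𝓝 x) := by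
    intro p
    obtain ⟨n, hn⟩ := connected p
    refine exists_hyperlim _ (1 + Λ * n) fun R => ?_
    have := (hco' R).near_T hn
    rw [hT0] at this
    have h1 := abs_le.1 this
    rw [abs_le]
    constructor <;> linarith
  choose Xi hXi using hlX
  choose Yi hYi using hlY
  choose Ti hTi using hlT
  have hneg : ∀ p, Tendsto (fun R => exp (-T' R p)) (hyperfilter ℕ : Filter ℕ)
      (𝓝 (exp (-Ti p))) := fun p => (continuous_exp.tendsto _).comp (hTi p).neg
  have hposT : ∀ p, Tendsto (fun R => exp (T' R p)) (hyperfilter ℕ : Filter ℕ)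
      (𝓝 (exp (Ti p))) := fun p => (continuous_exp.tendsto _).comp (hTi p)
  refine H Xi Yi Ti ⟨by linarith, ?_, ?_, ?_, ?_⟩ ?_
  · intro p q hpq
    have h1 : |Ti p - Ti q| ≤ Λ :=
      le_of_tendsto ((hTi p).sub (hTi q)).abs
        (Eventually.of_forall fun R => (hco' R).t_step p q hpq)
    linarith
  · intro p q hpq
    have h1 : |Xi p - Xi q| ≤ Λ * exp (-Ti p) :=
      le_of_tendsto_of_tendsto ((hXi p).sub (hXi q)).abs ((hneg p).const_mul Λ)
        (Eventually.of_forall fun R => (hco' R).x_step p q hpq)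
    have : 0 < exp (-Ti p) := exp_pos _
    nlinarith
  · intro p q hpq
    have h1 : |Yi p - Yi q| ≤ Λ * exp (Ti p) :=
      le_of_tendsto_of_tendsto ((hYi p).sub (hYi q)).abs ((hposT p).const_mul Λ)
        (Eventually.of_forall fun R => (hco' R).y_step p q hpq)
    have : 0 < exp (Ti p) := exp_pos _
    nlinarith
  · intro p q a b n hn
    have hS : Tendsto (fun R => Λ * (|T' R p - a| + exp a * |X' R p - X' R q| + |b - a| +
        exp (-b) * |Y' R p - Y' R q| + |b - T' R q| + 1)) (hyperfilter ℕ : Filter ℕ)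
        (𝓝 (Λ * (|Ti p - a| + exp a * |Xi p - Xi q| + |b - a| +
        exp (-b) * |Yi p - Yi q| + |b - Ti q| + 1))) := by
      refine Tendsto.const_mul _ ?_
      refine Tendsto.add (Tendsto.add (Tendsto.add (Tendsto.add (Tendsto.add ?_ ?_) ?_) ?_) ?_) ?_
      · exact ((hTi p).sub tendsto_const_nhds).abs
      · exact (((hXi p).sub (hXi q)).abs).const_mul _
      · exact tendsto_const_nhds
      · exact (((hYi p).sub (hYi q)).abs).const_mul _
      · exact (tendsto_const_nhds.sub (hTi q)).abs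
      · exact tendsto_const_nhds
    set S := |Ti p - a| + exp a * |Xi p - Xi q| + |b - a| +
        exp (-b) * |Yi p - Yi q| + |b - Ti q| + 1 with hSdef
    have hS1 : 1 ≤ S := by
      have : 0 ≤ |Ti p - a| + exp a * |Xi p - Xi q| + |b - a| +
        exp (-b) * |Yi p - Yi q| + |b - Ti q| := by positivity
      linarith
    have hlt : Λ * S < n := by nlinarith
    obtain ⟨R, hR⟩ := (hS.eventually_lt_const hlt).exists
    exact (hco' R).lower p q a b n hR.le
  · intro p
    obtain ⟨n, hn⟩ := connected p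
    refine ge_of_tendsto (hTi p) ?_
    have : ∀ᶠ R in (hyperfilter ℕ : Filter ℕ), n ≤ R :=
      Nat.hyperfilter_le_atTop (eventually_ge_atTop n)
    refine this.mono fun R hR => ?_
    have := hlow R p (hn.mono hR)
    simp only [hT', hτ]
    linarith

end Helper67.SQ
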